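import Pool.Agent.Lib.MP_6d95fe_co.H35.Defs
import Pool.Agent.Lib.MP_6d95fe_co.H35.Final

open Pool.Agent.Lib.MP_6d95fe_co.H35 in
/-- In Euclidean `n`-space a tiling by compact tiles with non-empty interior whose centred
coronas of order `7 n² + 3 n + 1` are pairwise congruent is isohedral. -/
theorem Pool.Agent.Results.MP_6d95fe_co.EuclideanCorona.result (n : ℕ)
    (T : Set (Set (EuclideanSpace ℝ (Fin n)))) (hT : IsTiling T)
    (hb : CoronasCongruent T (7 * n ^ 2 + 3 * n + 1)) : IsIsohedral T :=
  main_euclid T hT _ (by simp) hb
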