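import Pool.Agent.Lib.MP_6d95fe_co.Hn.Defs
import Pool.Agent.Lib.MP_6d95fe_co.Hn.Arith

open Pool.Agent.Lib.MP_6d95fe_co.Hn in
/-- In hyperbolic space of any dimension `n ≥ 2` there is no universal corona radius: for every
`K` there is a monohedral face-to-face tiling by convex polytopes in which any two tiles have
congruent centred `K`-th coronas, and which is not isohedral. -/
theorem Pool.Agent.Results.MP_6d95fe_co.HypAllDim.result (n : ℕ) (hn : 2 ≤ n) (K : ℕ) :
    ∃ T : Set (Set (HypSpace n)), IsTiling T ∧ IsMonohedral T ∧ IsFaceToFace T ∧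
      CoronasCongruent T K ∧ ¬ IsIsohedral T :=
  main n hn K
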