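import Pool.Agent.Lib.MP_6d95fe_co.H50Del5

/-- Local theorem with a radius depending only on the dimension. `T` is a family of non-empty
sets of diameter at most `D` in Euclidean `d`-space, pairwise at Hausdorff distance at least
`r > 0`, whose union has covering radius at most `R`. If the clusters of radius
`(9 d² + 8 d + 9) (R + D)` are pairwise congruent, the symmetry group of `T` is transitive. -/
theorem Pool.Agent.Results.MP_6d95fe_co.RegularityRadius.result (d : ℕ)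
    (T : Set (Set (EuclideanSpace ℝ (Fin d)))) (r D R : ℝ) (hr : 0 < r) (hR : 0 < R + D)
    (hne : ∀ P ∈ T, P.Nonempty) (hD : ∀ P ∈ T, ∀ p ∈ P, ∀ q ∈ P, dist p q ≤ D)
    (hsep : ∀ P ∈ T, ∀ Q ∈ T, P ≠ Q → r ≤ Metric.hausdorffDist P Q)
    (hcov : ∀ z, ∃ P ∈ T, ∃ p ∈ P, dist z p ≤ R)
    (hloc : ∀ P ∈ T, ∀ Q ∈ T, ∃ g : EuclideanSpace ℝ (Fin d) ≃ᵢ EuclideanSpace ℝ (Fin d),
      g '' P = Q ∧
      (fun S => g '' S) ''
          {S ∈ T | ∃ p ∈ P, ∃ s ∈ S, dist p s ≤ (9 * (d : ℝ) ^ 2 + 8 * d + 9) * (R + D)} =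
        {S ∈ T | ∃ q ∈ Q, ∃ s ∈ S, dist q s ≤ (9 * (d : ℝ) ^ 2 + 8 * d + 9) * (R + D)}) :
    ∀ P ∈ T, ∀ Q ∈ T, ∃ g : EuclideanSpace ℝ (Fin d) ≃ᵢ EuclideanSpace ℝ (Fin d),
      g '' P = Q ∧ (fun S => g '' S) '' T = T :=
  Pool.Agent.Lib.MP_6d95fe_co.Del.main T r D R hr hR hne hD hsep hcov (by simp) hloc
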