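import Pool.Agent.Lib.MP_6d95fe_co.H35.Defs
import Pool.Agent.Lib.MP_6d95fe_co.H35.SDefs
import Pool.Agent.Lib.MP_6d95fe_co.H35.Final
import Pool.Agent.Lib.MP_6d95fe_co.H35.Lune

open Pool.Agent.Lib.MP_6d95fe_co.H35 in
/-- On the `n`-sphere let a tiling by closed tiles with non-empty interior have all tiles inside
open hemispheres, or be a face-to-face tiling by convex polytopes. If its centred coronas of
order `7 (n+1)² + 3 (n+1) + 1` are pairwise congruent, it is isohedral. -/
theorem Pool.Agent.Results.MP_6d95fe_co.SphericalCorona.result (n : ℕ) (hn : 1 ≤ n)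
    (T : Set (Set (Metric.sphere (0 : EuclideanSpace ℝ (Fin (n + 1))) 1))) (hT : IsTiling T)
    (hh : InHemispheres T ∨ IsPolytopal T)
    (hb : CoronasCongruent T (7 * (n + 1) ^ 2 + 3 * (n + 1) + 1)) : IsIsohedral T := by
  have main := fun h => main_sphere (by simp; omega) T hT h _ (by simp) hb
  exact hh.elim main fun h => sphere_poly (by simp; omega) hT h.1
    (fun P hP Q hQ hne => (h.2 P hP Q hQ hne).imp fun u hu => ⟨hu.1, Set.ext hu.2⟩) hb main
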